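import Pool.Agent.H63.TC.Stmts

/-!
# Project TC: modules CU1, CU2, CU3, behaviour at the cusp
-/

open Complex Metric Set Filter Topology

namespace Pool.Agent.H63.TC

noncomputable section

/-- the term of the series -/
def cu1_T (w : ℂ) : ℂ := (Real.pi : ℂ) ^ 2 / (Complex.sin (Real.pi * w)) ^ 2

lemma cu1_P (τ z : ℂ) : P τ z = ∑' n : ℤ, cu1_T (z + n * τ) := rfl

/-- the series is close to a finite sum -/
lemma cu1_tail (S : Finset ℤ) {u : ℤ → ℝ} (hu : Summable u) (hu0 : ∀ n, 0 ≤ u n) {f : ℤ → ℂ}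
    (h : ∀ n, n ∉ S → ‖f n‖ ≤ u n) : ‖∑' n, f n - ∑ n ∈ S, f n‖ ≤ ∑' n, u n := by
  set g : ℤ → ℂ := fun n => if n ∈ S then 0 else f n with hg
  have hgb : ∀ n, ‖g n‖ ≤ u n := by
    intro n
    by_cases hn : n ∈ S
    · simp only [hg, hn, if_true, norm_zero]
      exact hu0 n
    · simp only [hg, hn, if_false]
      exact h n hn
  have hgs : Summable g := Summable.of_norm_bounded hu hgb
  have h1 : HasSum (fun n => if n ∈ S then f n else 0) (∑ n ∈ S, f n) := by
    have : HasSum (fun n => if n ∈ S then f n else 0) (∑ n ∈ S, if n ∈ S then f n else 0) :=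
      hasSum_sum_of_ne_finset_zero (fun n hn => by simp [hn])
    rwa [Finset.sum_congr rfl (fun n hn => by simp [hn] :
      ∀ n ∈ S, (if n ∈ S then f n else 0) = f n)] at this
  have h2 := hgs.hasSum.add h1
  have h3 : (fun n => g n + if n ∈ S then f n else 0) = f := by
    funext n
    by_cases hn : n ∈ S <;> simp [hg, hn]
  rw [h3] at h2
  rw [h2.tsum_eq, add_sub_cancel_right]
  exact tsum_of_norm_bounded hu.hasSum hgb

lemma cu1_summable : Summable (fun n : ℤ => Real.exp (-2 * Real.pi * |(n : ℝ) + 1 / 2|)) := by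
  have h0 : Summable (fun n : ℕ => Real.exp (n * (-2 * Real.pi))) := by
    rw [Real.summable_exp_nat_mul_iff]
    have := Real.pi_pos
    linarith
  rw [summable_int_iff_summable_nat_and_neg]
  constructor
  · refine Summable.of_nonneg_of_le (fun _ => (Real.exp_pos _).le) (fun n => ?_) h0
    apply Real.exp_le_exp.2
    have h1 : ((n : ℤ) : ℝ) ≤ |((n : ℤ) : ℝ) + 1 / 2| := by
      refine le_trans ?_ (le_abs_self _)
      linarith
    have h2 : ((n : ℤ) : ℝ) = (n : ℝ) := by simp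
    rw [h2] at h1
    have := Real.pi_pos
    rw [h2]
    nlinarith
  · refine Summable.of_nonneg_of_le (fun _ => (Real.exp_pos _).le) (fun n => ?_)
      (h0.mul_left (Real.exp Real.pi))
    rw [← Real.exp_add]
    apply Real.exp_le_exp.2
    have h2 : ((-(n : ℤ) : ℤ) : ℝ) = -(n : ℝ) := by simp
    rw [h2]
    have h1 : (n : ℝ) - 1 / 2 ≤ |-(n : ℝ) + 1 / 2| := by
      refine le_trans ?_ (neg_le_abs _)
      linarith
    have := Real.pi_pos
    nlinarith

/-- `q = exp (i π τ)` has absolute value `exp (- π Im τ)` -/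
lemma cu1_norm_q (τ : ℂ) : ‖exp (Real.pi * I * τ)‖ = Real.exp (-Real.pi * τ.im) := by
  rw [Complex.norm_exp]
  congr 1
  simp [mul_assoc]

/-- the main terms -/
lemma cu1_T_eq (w : ℂ) : cu1_T w = -4 * Real.pi ^ 2 * exp (2 * Real.pi * I * w) /
    (1 - exp (2 * Real.pi * I * w)) ^ 2 := by
  unfold cu1_T
  have h1 : Complex.sin (Real.pi * w) ^ 2 =
      -(1 - exp (2 * Real.pi * I * w)) ^ 2 / (4 * exp (2 * Real.pi * I * w)) := by
    have h2 : exp (2 * Real.pi * I * w) = exp (Real.pi * w * I) * exp (Real.pi * w * I) := by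
      rw [← Complex.exp_add]; congr 1; ring
    have h3 : exp (-(Real.pi * w) * I) = (exp (Real.pi * w * I))⁻¹ := by
      rw [← Complex.exp_neg]; congr 1; ring
    have h4 := Complex.exp_ne_zero (Real.pi * w * I)
    rw [Complex.sin, h3, h2]
    field_simp
    have hI : I ^ 2 = -1 := Complex.I_sq
    ring_nf
    rw [hI]
    ring
  rw [h1]
  have h4 := Complex.exp_ne_zero (2 * Real.pi * I * w)
  by_cases h5 : 1 - exp (2 * Real.pi * I * w) = 0
  · rw [h5]; simp
  · field_simp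

lemma cu1_T_neg (w : ℂ) : cu1_T (-w) = cu1_T w := by
  unfold cu1_T
  rw [mul_neg, Complex.sin_neg, neg_sq]

/-- the filter: `Im τ → ∞`, `v` in a disc -/
def cu1_L (C : ℝ) : Filter (ℂ × ℂ) :=
  (comap Complex.im atTop) ×ˢ 𝓟 (closedBall (0 : ℂ) C)

lemma cu1_im (C : ℝ) : Tendsto (fun p : ℂ × ℂ => p.1.im) (cu1_L C) atTop :=
  tendsto_comap.comp tendsto_fst

lemma cu1_v (C : ℝ) : ∀ᶠ p in cu1_L C, ‖(p : ℂ × ℂ).2‖ ≤ C := by
  have h : Tendsto (fun p : ℂ × ℂ => p.2) (cu1_L C) (𝓟 (closedBall (0 : ℂ) C)) := tendsto_snd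
  have h2 := h.eventually (mem_principal_self _)
  filter_upwards [h2] with p hp
  simpa using hp

lemma cu1_q0 : Tendsto (fun τ : ℂ => exp (Real.pi * I * τ)) (comap Complex.im atTop) (𝓝 0) := by
  rw [tendsto_zero_iff_norm_tendsto_zero]
  simp_rw [cu1_norm_q]
  have h1 : Tendsto (fun x : ℝ => Real.exp (-Real.pi * x)) atTop (𝓝 0) := by
    apply Real.tendsto_exp_atBot.comp
    exact tendsto_id.const_mul_atTop_of_neg (by have := Real.pi_pos; linarith)
  exact h1.comp tendsto_comap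

lemma cu1_q (C : ℝ) : Tendsto (fun p : ℂ × ℂ => exp (Real.pi * I * p.1)) (cu1_L C) (𝓝 0) :=
  cu1_q0.comp tendsto_fst

lemma cu1_main (C : ℝ) (s : ℂ) (hs : ‖s‖ = 1) : Tendsto (fun p : ℂ × ℂ =>
    exp (s * Real.pi * I * p.2) / (1 - exp (Real.pi * I * p.1) * exp (s * Real.pi * I * p.2)) ^ 2 -
      exp (s * Real.pi * I * p.2)) (cu1_L C) (𝓝 0) := by
  have hb : IsBoundedUnder (· ≤ ·) (cu1_L C)
      (norm ∘ fun p : ℂ × ℂ => exp (s * Real.pi * I * p.2)) := by
    refine isBoundedUnder_of_eventually_le (a := Real.exp (Real.pi * C)) ?_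
    filter_upwards [cu1_v C] with p hp
    simp only [Function.comp_apply]
    rw [Complex.norm_exp]
    apply Real.exp_le_exp.2
    refine (Complex.re_le_norm _).trans ?_
    rw [norm_mul, norm_mul, norm_mul, hs, Complex.norm_I, Complex.norm_real, Real.norm_eq_abs,
      abs_of_pos Real.pi_pos]
    have := Real.pi_pos
    nlinarith
  have h1 := (cu1_q C).zero_mul_isBoundedUnder_le hb
  have h2 : Tendsto (fun x : ℂ => 1 / (1 - x) ^ 2 - 1) (𝓝 0) (𝓝 0) := by
    have : ContinuousAt (fun x : ℂ => 1 / (1 - x) ^ 2 - 1) 0 := by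
      refine ContinuousAt.sub (ContinuousAt.div continuousAt_const ?_ ?_) continuousAt_const
      · fun_prop
      · simp
    have h3 := this.tendsto
    simpa using h3
  have h3 := (h2.comp h1).zero_mul_isBoundedUnder_le hb
  refine h3.congr fun p => ?_
  simp only [Function.comp_apply]
  ring

/-- the two main terms -/
lemma cu1_two (C : ℝ) : Tendsto (fun p : ℂ × ℂ =>
    (cu1_T ((p.1 + p.2) / 2) + cu1_T ((p.1 + p.2) / 2 - p.1)) / exp (Real.pi * I * p.1) +
      8 * Real.pi ^ 2 * cos (Real.pi * p.2)) (cu1_L C) (𝓝 0) := by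
  have h1 := ((cu1_main C 1 (by simp)).add (cu1_main C (-1) (by simp))).const_mul
    (-4 * (Real.pi : ℂ) ^ 2)
  rw [add_zero, mul_zero] at h1
  refine h1.congr fun p => ?_
  have e1 : cu1_T ((p.1 + p.2) / 2) = -4 * Real.pi ^ 2 *
      (exp (Real.pi * I * p.1) * exp (1 * Real.pi * I * p.2)) /
      (1 - exp (Real.pi * I * p.1) * exp (1 * Real.pi * I * p.2)) ^ 2 := by
    rw [cu1_T_eq]
    have : exp (2 * Real.pi * I * ((p.1 + p.2) / 2)) =
        exp (Real.pi * I * p.1) * exp (1 * Real.pi * I * p.2) := by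
      rw [← Complex.exp_add]; congr 1; ring
    rw [this]
  have e2 : cu1_T ((p.1 + p.2) / 2 - p.1) = -4 * Real.pi ^ 2 *
      (exp (Real.pi * I * p.1) * exp (-1 * Real.pi * I * p.2)) /
      (1 - exp (Real.pi * I * p.1) * exp (-1 * Real.pi * I * p.2)) ^ 2 := by
    rw [← cu1_T_neg, cu1_T_eq]
    have : exp (2 * Real.pi * I * (-((p.1 + p.2) / 2 - p.1))) =
        exp (Real.pi * I * p.1) * exp (-1 * Real.pi * I * p.2) := by
      rw [← Complex.exp_add]; congr 1; ring
    rw [this]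
  have e3 : cos (Real.pi * p.2) =
      (exp (1 * Real.pi * I * p.2) + exp (-1 * Real.pi * I * p.2)) / 2 := by
    rw [Complex.cos]
    congr 2
    · congr 1; ring
    · congr 1; ring
  rw [e1, e2, e3]
  have hq := Complex.exp_ne_zero (Real.pi * I * p.1)
  have f1 : ∀ X : ℂ, -4 * Real.pi ^ 2 * (exp (Real.pi * I * p.1) * X) /
      (1 - exp (Real.pi * I * p.1) * X) ^ 2 / exp (Real.pi * I * p.1) =
      -4 * Real.pi ^ 2 * (X / (1 - exp (Real.pi * I * p.1) * X) ^ 2) := by
    intro X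
    by_cases h5 : (1 - exp (Real.pi * I * p.1) * X) ^ 2 = 0
    · rw [h5]; simp
    · field_simp
  rw [add_div, f1, f1]
  ring

/-- the tail at `(τ + v) / 2` -/
lemma cu1_tail1 (hS : SnbStmt) (C : ℝ) : ∃ K : ℝ, ∀ τ v : ℂ, 3 ≤ τ.im → C + 1 ≤ τ.im →
    ‖v‖ ≤ C → ‖P τ ((τ + v) / 2) - (cu1_T ((τ + v) / 2) + cu1_T ((τ + v) / 2 - τ))‖ ≤
      K * Real.exp (-2 * Real.pi * τ.im) := by
  refine ⟨50 * Real.exp (Real.pi * C) *
    ∑' n : ℤ, Real.exp (-2 * Real.pi * |(n : ℝ) + 1 / 2|), fun τ v h1 h2 hv => ?_⟩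
  have hsum : ∑ n ∈ ({0, -1} : Finset ℤ), cu1_T ((τ + v) / 2 + n * τ) =
      cu1_T ((τ + v) / 2) + cu1_T ((τ + v) / 2 - τ) := by
    rw [Finset.sum_pair (by norm_num)]
    congr 2
    · simp
    · push_cast; ring
  rw [cu1_P, ← hsum]
  refine (cu1_tail ({0, -1} : Finset ℤ)
    (u := fun n => (50 * Real.exp (Real.pi * C) * Real.exp (-2 * Real.pi * τ.im)) *
      Real.exp (-2 * Real.pi * |(n : ℝ) + 1 / 2|)) (cu1_summable.mul_left _)
    (fun n => by positivity) fun n hn => ?_).trans ?_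
  · have hn' : (3 / 2 : ℝ) ≤ |(n : ℝ) + 1 / 2| := by
      simp only [Finset.mem_insert, Finset.mem_singleton, not_or] at hn
      rcases le_or_gt 1 n with h | h
      · have : (1 : ℝ) ≤ n := by exact_mod_cast h
        refine le_trans ?_ (le_abs_self _)
        linarith
      · have h3 : n ≤ -2 := by omega
        have : (n : ℝ) ≤ -2 := by exact_mod_cast h3
        refine le_trans ?_ (neg_le_abs _)
        linarith
    have him : ((τ + v) / 2 + n * τ).im = ((n : ℝ) + 1 / 2) * τ.im + v.im / 2 := by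
      simp
      ring
    have hvi : |v.im / 2| ≤ C / 2 := by
      rw [abs_div, abs_two]
      have := (Complex.abs_im_le_norm v).trans hv
      linarith
    have hlow : |(n : ℝ) + 1 / 2| * τ.im - C / 2 ≤ |((τ + v) / 2 + n * τ).im| := by
      rw [him]
      have h3 := abs_sub_abs_le_abs_sub (((n : ℝ) + 1 / 2) * τ.im) (-(v.im / 2))
      rw [abs_mul, abs_of_pos (show 0 < τ.im by linarith), abs_neg, sub_neg_eq_add] at h3
      linarith
    have h5 : (1 : ℝ) / 2 ≤ |((τ + v) / 2 + n * τ).im| := by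
      refine le_trans ?_ hlow
      nlinarith
    have h6 : ((τ + v) / 2 + n * τ).im ≠ 0 := by
      intro h0
      rw [h0, abs_zero] at h5
      linarith
    refine ((hS _ h6).2 h5).trans ?_
    have h7 : Real.exp (-2 * Real.pi * |((τ + v) / 2 + n * τ).im|) ≤
        Real.exp (Real.pi * C) * Real.exp (-2 * Real.pi * τ.im) *
          Real.exp (-2 * Real.pi * |(n : ℝ) + 1 / 2|) := by
      rw [← Real.exp_add, ← Real.exp_add]
      apply Real.exp_le_exp.2
      have hpi := Real.pi_pos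
      have h8 : 2 * τ.im + 2 * |(n : ℝ) + 1 / 2| ≤ 2 * (|(n : ℝ) + 1 / 2| * τ.im) := by
        nlinarith
      have h9 : 2 * Real.pi * (τ.im + |(n : ℝ) + 1 / 2|) - Real.pi * C ≤
          2 * Real.pi * |((τ + v) / 2 + n * τ).im| := by
        have h10 : τ.im + |(n : ℝ) + 1 / 2| - C / 2 ≤ |((τ + v) / 2 + n * τ).im| := by linarith
        have := mul_le_mul_of_nonneg_left h10 (show 0 ≤ 2 * Real.pi by linarith)
        linarith
      linarith
    linarith
  · rw [tsum_mul_left]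
    apply le_of_eq
    ring

/-- `P` near the half period, uniformly -/
lemma cu1_half (hS : SnbStmt) (C : ℝ) : Tendsto (fun p : ℂ × ℂ =>
    P p.1 ((p.1 + p.2) / 2) / exp (Real.pi * I * p.1) +
      8 * Real.pi ^ 2 * cos (Real.pi * p.2)) (cu1_L C) (𝓝 0) := by
  obtain ⟨K, hK⟩ := cu1_tail1 hS C
  have h1 : Tendsto (fun p : ℂ × ℂ => (P p.1 ((p.1 + p.2) / 2) -
      (cu1_T ((p.1 + p.2) / 2) + cu1_T ((p.1 + p.2) / 2 - p.1))) / exp (Real.pi * I * p.1))
      (cu1_L C) (𝓝 0) := by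
    have h2 : Tendsto (fun p : ℂ × ℂ => K * Real.exp (-Real.pi * p.1.im)) (cu1_L C) (𝓝 0) := by
      have h3 : Tendsto (fun x : ℝ => K * Real.exp (-Real.pi * x)) atTop (𝓝 (K * 0)) := by
        apply Tendsto.const_mul
        apply Real.tendsto_exp_atBot.comp
        exact tendsto_id.const_mul_atTop_of_neg (by have := Real.pi_pos; linarith)
      rw [mul_zero] at h3
      exact h3.comp (cu1_im C)
    refine squeeze_zero_norm' ?_ h2
    filter_upwards [cu1_v C, (cu1_im C).eventually_ge_atTop 3,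
      (cu1_im C).eventually_ge_atTop (C + 1)] with p hv h3 h4
    rw [norm_div, cu1_norm_q, div_le_iff₀ (Real.exp_pos _), mul_assoc, ← Real.exp_add]
    have h5 := hK p.1 p.2 h3 h4 hv
    have e : -Real.pi * p.1.im + -Real.pi * p.1.im = -2 * Real.pi * p.1.im := by ring
    rw [e]
    exact h5
  have h2 := h1.add (cu1_two C)
  rw [add_zero] at h2
  refine h2.congr fun p => ?_
  ring

lemma cu1_at (C : ℝ) (v : ℂ) (hv : ‖v‖ ≤ C) :
    Tendsto (fun τ : ℂ => (τ, v)) (comap Complex.im atTop) (cu1_L C) := by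
  refine tendsto_id.prodMk ?_
  rw [tendsto_principal]
  exact Eventually.of_forall fun _ => by simpa using hv

lemma cu1_e1 (hS : SnbStmt) : Tendsto (fun τ : ℂ => e1 τ / exp (Real.pi * I * τ))
    (comap Complex.im atTop) (𝓝 (-8 * Real.pi ^ 2)) := by
  have h1 := ((cu1_half hS 1).comp (cu1_at 1 0 (by simp))).add_const (-8 * (Real.pi : ℂ) ^ 2)
  rw [zero_add] at h1
  refine h1.congr fun τ => ?_
  simp only [Function.comp_apply, mul_zero, Complex.cos_zero, add_zero, e1]
  ring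

lemma cu1_e2 (hS : SnbStmt) : Tendsto (fun τ : ℂ => e2 τ / exp (Real.pi * I * τ))
    (comap Complex.im atTop) (𝓝 (8 * Real.pi ^ 2)) := by
  have h1 := ((cu1_half hS 1).comp (cu1_at 1 1 (by simp))).add_const (8 * (Real.pi : ℂ) ^ 2)
  rw [zero_add] at h1
  refine h1.congr fun τ => ?_
  simp only [Function.comp_apply, mul_one, Complex.cos_pi, e2]
  rw [add_comm 1 τ]
  ring

lemma cu1_e3 (hS : SnbStmt) : Tendsto (fun τ : ℂ => e3 τ)
    (comap Complex.im atTop) (𝓝 (Real.pi ^ 2)) := by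
  set K := 50 * Real.exp Real.pi * ∑' n : ℤ, Real.exp (-2 * Real.pi * |(n : ℝ) + 1 / 2|) with hK
  have h1 : Tendsto (fun τ : ℂ => e3 τ - (Real.pi : ℂ) ^ 2) (comap Complex.im atTop) (𝓝 0) := by
    have h2 : Tendsto (fun τ : ℂ => K * Real.exp (-Real.pi * τ.im)) (comap Complex.im atTop)
        (𝓝 0) := by
      have h3 : Tendsto (fun x : ℝ => K * Real.exp (-Real.pi * x)) atTop (𝓝 (K * 0)) := by
        apply Tendsto.const_mul
        apply Real.tendsto_exp_atBot.comp
        exact tendsto_id.const_mul_atTop_of_neg (by have := Real.pi_pos; linarith)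
      rw [mul_zero] at h3
      exact h3.comp tendsto_comap
    refine squeeze_zero_norm' ?_ h2
    have h3 : Tendsto Complex.im (comap Complex.im atTop) atTop := tendsto_comap
    filter_upwards [h3.eventually_ge_atTop 2] with τ hτ
    have hsum : ∑ n ∈ ({0} : Finset ℤ), cu1_T (1 / 2 + n * τ) = (Real.pi : ℂ) ^ 2 := by
      rw [Finset.sum_singleton]
      unfold cu1_T
      have : (Real.pi : ℂ) * (1 / 2 + ((0 : ℤ) : ℂ) * τ) = Real.pi / 2 := by
        push_cast; ring
      rw [this, Complex.sin_pi_div_two]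
      simp
    unfold e3
    rw [cu1_P, ← hsum]
    refine (cu1_tail ({0} : Finset ℤ)
      (u := fun n => (50 * Real.exp Real.pi * Real.exp (-Real.pi * τ.im)) *
        Real.exp (-2 * Real.pi * |(n : ℝ) + 1 / 2|)) (cu1_summable.mul_left _)
      (fun n => by positivity) fun n hn => ?_).trans ?_
    · have hn' : (1 : ℝ) ≤ |(n : ℝ)| := by
        simp only [Finset.mem_singleton] at hn
        have := Int.one_le_abs hn
        exact_mod_cast this
      have him : (1 / 2 + n * τ).im = (n : ℝ) * τ.im := by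
        simp
      have habs : |(1 / 2 + n * τ).im| = |(n : ℝ)| * τ.im := by
        rw [him, abs_mul, abs_of_pos (show 0 < τ.im by linarith)]
      have h5 : (1 : ℝ) / 2 ≤ |(1 / 2 + n * τ).im| := by
        rw [habs]
        nlinarith
      have h6 : (1 / 2 + n * τ).im ≠ 0 := by
        intro h0
        rw [h0, abs_zero] at h5
        linarith
      refine ((hS _ h6).2 h5).trans ?_
      have h7 : Real.exp (-2 * Real.pi * |(1 / 2 + n * τ).im|) ≤
          Real.exp Real.pi * Real.exp (-Real.pi * τ.im) *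
            Real.exp (-2 * Real.pi * |(n : ℝ) + 1 / 2|) := by
        rw [← Real.exp_add, ← Real.exp_add, habs]
        apply Real.exp_le_exp.2
        have hpi := Real.pi_pos
        have h8 : |(n : ℝ) + 1 / 2| ≤ |(n : ℝ)| + 1 / 2 := by
          have := abs_add_le (n : ℝ) (1 / 2)
          rwa [abs_of_pos (show (0 : ℝ) < 1 / 2 by norm_num)] at this
        have h9 : τ.im + 2 * |(n : ℝ) + 1 / 2| - 1 ≤ 2 * (|(n : ℝ)| * τ.im) := by
          nlinarith
        nlinarith
      linarith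
    · rw [tsum_mul_left]
      apply le_of_eq
      rw [hK]
      ring
  have h2 := h1.add_const ((Real.pi : ℂ) ^ 2)
  rw [zero_add] at h2
  refine h2.congr fun τ => by ring

lemma cu1_lim (hS : SnbStmt) : Tendsto (fun τ : ℂ => lam τ * exp (Real.pi * I * τ))
    (comap Complex.im atTop) (𝓝 (1 / 16)) := by
  have hd := (cu1_e2 hS).sub (cu1_e1 hS)
  have hn : Tendsto (fun τ : ℂ => e3 τ - e1 τ) (comap Complex.im atTop)
      (𝓝 ((Real.pi : ℂ) ^ 2 - -8 * Real.pi ^ 2 * 0)) := by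
    refine (cu1_e3 hS).sub (((cu1_e1 hS).mul cu1_q0).congr fun τ => ?_)
    rw [div_mul_cancel₀ _ (Complex.exp_ne_zero _)]
  have hpi : (Real.pi : ℂ) ≠ 0 := by exact_mod_cast Real.pi_ne_zero
  have h0 : (8 * (Real.pi : ℂ) ^ 2 - -8 * Real.pi ^ 2) ≠ 0 := by
    have : (8 * (Real.pi : ℂ) ^ 2 - -8 * Real.pi ^ 2) = 16 * Real.pi ^ 2 := by ring
    rw [this]
    exact mul_ne_zero (by norm_num) (pow_ne_zero 2 hpi)
  have h1 := hn.div hd h0
  have h2 : ((Real.pi : ℂ) ^ 2 - -8 * Real.pi ^ 2 * 0) / (8 * (Real.pi : ℂ) ^ 2 -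
      -8 * Real.pi ^ 2) = 1 / 16 := by
    have : (8 * (Real.pi : ℂ) ^ 2 - -8 * Real.pi ^ 2) = 16 * Real.pi ^ 2 := by ring
    rw [this]
    field_simp
    ring
  rw [h2] at h1
  refine h1.congr fun τ => ?_
  have hq := Complex.exp_ne_zero (Real.pi * I * τ)
  unfold lam
  simp only [Pi.div_apply]
  rw [← sub_div, div_div_eq_mul_div, div_mul_eq_mul_div]

theorem cu1 (hS : SnbStmt) : Cu1Stmt := by
  intro ε hε
  have h := cu1_lim hS
  rw [Metric.tendsto_nhds] at h
  have h1 := h ε hε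
  rw [eventually_comap, eventually_atTop] at h1
  obtain ⟨R, hR⟩ := h1
  refine ⟨R, fun τ hτ => ?_⟩
  have := hR τ.im hτ.le τ rfl
  rwa [dist_eq_norm] at this

theorem cu2 (hS : SnbStmt) : Cu2Stmt := by
  intro C ε hε
  have hd := ((cu1_e2 hS).sub (cu1_e1 hS)).comp (tendsto_fst (f := comap Complex.im atTop)
    (g := 𝓟 (closedBall (0 : ℂ) C)))
  have hpi : (Real.pi : ℂ) ≠ 0 := by exact_mod_cast Real.pi_ne_zero
  have e16 : (8 * (Real.pi : ℂ) ^ 2 - -8 * Real.pi ^ 2) = 16 * Real.pi ^ 2 := by ring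
  rw [e16] at hd
  have h16 : (16 : ℂ) * (Real.pi : ℂ) ^ 2 ≠ 0 := mul_ne_zero (by norm_num) (pow_ne_zero 2 hpi)
  have he1 := (cu1_e1 hS).comp (tendsto_fst (f := comap Complex.im atTop)
    (g := 𝓟 (closedBall (0 : ℂ) C)))
  -- the numerator minus `8 π² (1 - cos)`
  have hn : Tendsto (fun p : ℂ × ℂ => P p.1 ((p.1 + p.2) / 2) / exp (Real.pi * I * p.1) -
      e1 p.1 / exp (Real.pi * I * p.1) - 8 * Real.pi ^ 2 * (1 - cos (Real.pi * p.2)))
      (cu1_L C) (𝓝 0) := by
    have h1 := (cu1_half hS C).sub (he1.sub_const (-8 * (Real.pi : ℂ) ^ 2))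
    rw [sub_self, sub_zero] at h1
    refine h1.congr fun p => ?_
    simp only [Function.comp_apply]
    ring
  have hc : IsBoundedUnder (· ≤ ·) (cu1_L C)
      (norm ∘ fun p : ℂ × ℂ => 8 * (Real.pi : ℂ) ^ 2 * (1 - cos (Real.pi * p.2))) := by
    obtain ⟨B, hB⟩ := (isCompact_closedBall (0 : ℂ) C).exists_bound_of_continuousOn
      (f := fun v : ℂ => 8 * (Real.pi : ℂ) ^ 2 * (1 - cos (Real.pi * v)))
      (by fun_prop)
    refine isBoundedUnder_of_eventually_le (a := B) ?_
    filter_upwards [cu1_v C] with p hp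
    exact hB p.2 (by simpa using hp)
  have hinv := (hd.inv₀ h16).sub_const ((16 * (Real.pi : ℂ) ^ 2)⁻¹)
  rw [sub_self] at hinv
  have h2 := (hinv.zero_mul_isBoundedUnder_le hc)
  have h3 := hn.mul (hd.inv₀ h16)
  rw [zero_mul] at h3
  have h4 := h3.add h2
  rw [add_zero] at h4
  have h5 : Tendsto (fun p : ℂ × ℂ => yy p.1 (p.1 + p.2) - (sin (Real.pi * p.2 / 2)) ^ 2)
      (cu1_L C) (𝓝 0) := by
    refine h4.congr fun p => ?_
    simp only [Function.comp_apply]
    have hq := Complex.exp_ne_zero (Real.pi * I * p.1)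
    have e1' : yy p.1 (p.1 + p.2) = (P p.1 ((p.1 + p.2) / 2) / exp (Real.pi * I * p.1) -
        e1 p.1 / exp (Real.pi * I * p.1)) *
        (e2 p.1 / exp (Real.pi * I * p.1) - e1 p.1 / exp (Real.pi * I * p.1))⁻¹ := by
      unfold yy
      rw [← sub_div, ← sub_div, inv_div, div_mul_div_cancel₀ hq]
    have e2' : (sin (Real.pi * p.2 / 2)) ^ 2 = (1 - cos (Real.pi * p.2)) / 2 := by
      have h6 : Real.pi * p.2 = 2 * (Real.pi * p.2 / 2) := by ring
      have h7 := Complex.cos_two_mul (Real.pi * p.2 / 2)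
      have h8 := Complex.sin_sq_add_cos_sq (Real.pi * p.2 / 2)
      rw [← h6] at h7
      rw [h7]
      linear_combination h8
    rw [e1', e2']
    field_simp
    ring
  rw [Metric.tendsto_nhds] at h5
  have h6 := h5 ε hε
  unfold cu1_L at h6
  rw [eventually_prod_principal_iff, eventually_comap, eventually_atTop] at h6
  obtain ⟨R, hR⟩ := h6
  refine ⟨R, fun τ hτ v hv => ?_⟩
  have := hR τ.im hτ.le τ rfl v (by simpa using hv)
  rwa [dist_zero_right] at this

theorem cu3 (h1 : Cu1Stmt) (hL : LmdStmt) : Cu3Stmt := by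
  obtain ⟨R, hR⟩ := h1 (1 / 32) (by norm_num)
  refine ⟨max R 0 + 1, 3 * Real.exp Real.pi, fun τ hτ => ?_⟩
  have hball : ∀ τ' ∈ closedBall τ 1, max R 0 < τ'.im ∧ τ'.im ≤ τ.im + 1 := by
    intro τ' h
    rw [mem_closedBall, dist_eq_norm] at h
    have h2 := (Complex.abs_im_le_norm (τ' - τ)).trans h
    rw [Complex.sub_im] at h2
    have h3 := abs_le.1 h2
    constructor <;> linarith
  have hnorm : ∀ τ' : ℂ, ‖lam τ' * exp (Real.pi * I * τ')‖ =
      ‖lam τ'‖ * Real.exp (-Real.pi * τ'.im) := fun τ' => by rw [norm_mul, cu1_norm_q]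
  have hup : ∀ τ' ∈ closedBall τ 1, ‖lam τ'‖ ≤ 3 * Real.exp Real.pi * ‖lam τ‖ := by
    intro τ' h
    obtain ⟨h2, h3⟩ := hball τ' h
    have h4 := hR τ' ((le_max_left _ _).trans_lt h2)
    have h5 := hR τ ((le_max_left R 0).trans_lt (by linarith))
    have h6 : ‖lam τ'‖ * Real.exp (-Real.pi * τ'.im) ≤ 3 / 32 := by
      rw [← hnorm]
      have e : lam τ' * exp (Real.pi * I * τ') =
          (lam τ' * exp (Real.pi * I * τ') - 1 / 16) + 1 / 16 := by ring
      rw [e]
      refine (norm_add_le _ _).trans ?_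
      have : ‖(1 / 16 : ℂ)‖ = 1 / 16 := by norm_num
      rw [this]
      linarith
    have h7 : 1 / 32 ≤ ‖lam τ‖ * Real.exp (-Real.pi * τ.im) := by
      rw [← hnorm]
      have h8 : ‖(1 / 16 : ℂ)‖ ≤ ‖(1 / 16 : ℂ) - lam τ * exp (Real.pi * I * τ)‖ +
          ‖lam τ * exp (Real.pi * I * τ)‖ := by
        have := norm_add_le ((1 / 16 : ℂ) - lam τ * exp (Real.pi * I * τ))
          (lam τ * exp (Real.pi * I * τ))
        rwa [sub_add_cancel] at this
      rw [norm_sub_rev] at h8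
      have : ‖(1 / 16 : ℂ)‖ = 1 / 16 := by norm_num
      rw [this] at h8
      linarith
    have h9 : Real.exp (-Real.pi * τ.im) ≤ Real.exp Real.pi * Real.exp (-Real.pi * τ'.im) := by
      rw [← Real.exp_add]
      apply Real.exp_le_exp.2
      have := Real.pi_pos
      nlinarith
    have hE := Real.exp_pos (-Real.pi * τ'.im)
    have h10 : ‖lam τ'‖ * Real.exp (-Real.pi * τ'.im) ≤
        (3 * Real.exp Real.pi * ‖lam τ‖) * Real.exp (-Real.pi * τ'.im) := by
      have h11 : ‖lam τ‖ * Real.exp (-Real.pi * τ.im) ≤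
          ‖lam τ‖ * (Real.exp Real.pi * Real.exp (-Real.pi * τ'.im)) :=
        mul_le_mul_of_nonneg_left h9 (norm_nonneg _)
      nlinarith
    exact le_of_mul_le_mul_right h10 hE
  have hd : DifferentiableOn ℂ lam (closedBall τ 1) := fun τ' h =>
    (hL τ' ((le_max_right R 0).trans_lt (hball τ' h).1)).1.differentiableWithinAt
  have hdc : DiffContOnCl ℂ lam (ball τ 1) := by
    apply DifferentiableOn.diffContOnCl
    rw [closure_ball _ one_ne_zero]
    exact hd
  have := Complex.norm_deriv_le_of_forall_mem_sphere_norm_le one_pos hdc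
    (fun z hz => hup z (sphere_subset_closedBall hz))
  rwa [div_one] at this

end

end Pool.Agent.H63.TC
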